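import Pool.Agent.Q53.PS.HC

/-!
# Project PS (helper284): sums over monic polynomials, general lemmas; job CPR
-/

set_option autoImplicit false

open Finset Polynomial ComplexConjugate
open Pool.Agent.H341R2.Sharp (Mon mem_Mon Mon_zero Irr mem_Irr count_dvd)

namespace Pool.Agent.Q53.PS

open Pool.Agent.Q284.PS

variable {F : Type} [Field F] [Fintype F] {R : Type} [CommRing R]

lemma mem_PD {k : ℕ} {P : F[X]} :
    P ∈ PD F k ↔ P.Monic ∧ P.natDegree ≤ k ∧ Irreducible P ∧ P.natDegree ∣ k := by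
  classical
  unfold PD
  rw [mem_filter, mem_biUnion]
  constructor
  · rintro ⟨⟨j, hj, hP⟩, hi, hd⟩
    rw [mem_Mon] at hP
    rw [mem_range] at hj
    exact ⟨hP.1, by omega, hi, hd⟩
  · rintro ⟨h1, h2, h3, h4⟩
    exact ⟨⟨P.natDegree, mem_range.2 (by omega), mem_Mon.2 ⟨h1, rfl⟩⟩, h3, h4⟩

lemma mem_UB {k : ℕ} {f : F[X]} : f ∈ UB F k ↔ f.Monic ∧ f.natDegree ≤ k := by
  classical
  unfold UB
  rw [mem_biUnion]
  constructor
  · rintro ⟨j, hj, hP⟩
    rw [mem_Mon] at hP
    rw [mem_range] at hj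
    exact ⟨hP.1, by omega⟩
  · rintro ⟨h1, h2⟩
    exact ⟨f.natDegree, mem_range.2 (by omega), mem_Mon.2 ⟨h1, rfl⟩⟩

lemma sum_UB (k : ℕ) (G : F[X] → R) :
    ∑ f ∈ UB F k, G f = ∑ j ∈ range (k + 1), ∑ f ∈ Mon F j, G f := by
  classical
  unfold UB
  rw [sum_biUnion]
  intro i _ j _ hij
  rw [Function.onFun, Finset.disjoint_left]
  intro f hf hf'
  rw [mem_Mon] at hf hf'
  exact hij (hf.2.symm.trans hf'.2)

omit [Fintype F] in
lemma pow_val {ψ : F[X] → R} (h1 : ψ 1 = 1)
    (hmul : ∀ f g : F[X], f.Monic → g.Monic → ψ (f * g) = ψ f * ψ g) {P : F[X]} (hP : P.Monic)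
    (k : ℕ) : ψ (P ^ k) = ψ P ^ k := by
  induction k with
  | zero => rw [pow_zero, pow_zero, h1]
  | succ k ih => rw [pow_succ, hmul _ _ (hP.pow k) hP, ih, pow_succ]

open Classical in
lemma sum_dvd (G : F[X] → R) (d : F[X]) (hd : d.Monic) (n : ℕ) :
    ∑ h ∈ Mon F n, (if d ∣ h then G h else 0) =
      if d.natDegree ≤ n then ∑ g ∈ Mon F (n - d.natDegree), G (d * g) else 0 := by
  rw [← sum_filter]
  split_ifs with hn
  · rw [filter_dvd d n hd hn, sum_image]
    intro g _ g' _ h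
    exact mul_left_cancel₀ hd.ne_zero h
  · apply sum_eq_zero
    intro h hh
    rw [mem_filter, mem_Mon] at hh
    exfalso
    have := natDegree_le_of_dvd hh.2 hh.1.1.ne_zero
    rw [hh.1.2] at this
    exact hn this

lemma T_eq' (ψ : F[X] → R) (n m : ℕ) (hm : 1 ≤ m) (hmn : m ≤ n) [DecidableEq F] :
    ∑ P ∈ PD F m, (P.natDegree : R) * ψ P ^ (m / P.natDegree) =
    ∑ P ∈ Irr F n, ∑ k ∈ Icc 1 n,
      (if k * P.natDegree = m then (P.natDegree : R) * ψ P ^ k else 0) := by
  have h1 : ∀ P ∈ Irr F n, ∑ k ∈ Icc 1 n,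
      (if k * P.natDegree = m then (P.natDegree : R) * ψ P ^ k else 0) =
      if P.natDegree ∣ m then (P.natDegree : R) * ψ P ^ (m / P.natDegree) else 0 := by
    intro P hP
    rw [mem_Irr] at hP
    have h3 : 1 ≤ P.natDegree := hP.2.1.natDegree_pos
    split_ifs with hdvd
    · obtain ⟨k, hk⟩ := hdvd
      have hkm : k * P.natDegree = m := by rw [hk]; ring
      have hk1 : 1 ≤ k := by
        rcases Nat.eq_zero_or_pos k with h0 | h0
        · rw [h0] at hkm; omega
        · exact h0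
      have hkn : k ≤ n := by nlinarith
      rw [sum_eq_single k]
      · rw [if_pos hkm]
        have : m / P.natDegree = k := by
          rw [hk]
          exact Nat.mul_div_cancel_left _ (by omega)
        rw [this]
      · intro j _ hj
        rw [if_neg]
        intro hjm
        exact hj (Nat.eq_of_mul_eq_mul_right (by omega) (hjm.trans hkm.symm))
      · intro hk'
        exact absurd (mem_Icc.2 ⟨hk1, hkn⟩) hk'
    · apply sum_eq_zero
      intro k _
      rw [if_neg]
      intro hk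
      exact hdvd ⟨k, by rw [← hk]; ring⟩
  rw [sum_congr rfl h1, ← sum_filter]
  apply sum_congr _ fun _ _ => rfl
  ext P
  rw [mem_filter, mem_PD, mem_Irr]
  constructor
  · rintro ⟨h1, h2, h3, h4⟩
    exact ⟨⟨h1, h3, by omega⟩, h4⟩
  · rintro ⟨⟨h1, h2, h3⟩, h4⟩
    exact ⟨h1, Nat.le_of_dvd (by omega) h4, h2, h4⟩

/-- the logarithmic derivative identity for completely multiplicative functions -/
theorem log_deriv {ψ : F[X] → R} (hψ1 : ψ 1 = 1)
    (hmul : ∀ f g : F[X], f.Monic → g.Monic → ψ (f * g) = ψ f * ψ g) (n : ℕ) :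
    (n : R) * ∑ f ∈ Mon F n, ψ f = ∑ m ∈ Icc 1 n,
      (∑ P ∈ PD F m, (P.natDegree : R) * ψ P ^ (m / P.natDegree)) * ∑ f ∈ Mon F (n - m), ψ f := by
  classical
  have h1 : (n : R) * ∑ f ∈ Mon F n, ψ f = ∑ P ∈ Irr F n, ∑ k ∈ Icc 1 n, (P.natDegree : R) *
      ∑ h ∈ Mon F n, (if P ^ k ∣ h then ψ h else 0) := by
    have h2 : (n : R) * ∑ f ∈ Mon F n, ψ f = ∑ h ∈ Mon F n, ∑ P ∈ Irr F n, ∑ k ∈ Icc 1 n,
        (P.natDegree : R) * (if P ^ k ∣ h then ψ h else 0) := by
      rw [mul_sum]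
      apply sum_congr rfl
      intro h hh
      have h3 := congrArg (Int.cast : ℤ → R) (count_dvd hh)
      push_cast at h3
      rw [← h3, sum_mul]
      apply sum_congr rfl
      intro P _
      rw [sum_mul]
      apply sum_congr rfl
      intro k _
      split_ifs <;> simp
    rw [h2, sum_comm]
    apply sum_congr rfl
    intro P _
    rw [sum_comm]
    apply sum_congr rfl
    intro k _
    rw [mul_sum]
  rw [h1]
  have h3 : ∀ P ∈ Irr F n, ∑ k ∈ Icc 1 n, (P.natDegree : R) *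
      ∑ h ∈ Mon F n, (if P ^ k ∣ h then ψ h else 0) =
      ∑ k ∈ Icc 1 n, ∑ m ∈ Icc 1 n, (∑ f ∈ Mon F (n - m), ψ f) *
        (if k * P.natDegree = m then (P.natDegree : R) * ψ P ^ k else 0) := by
    intro P hP
    rw [mem_Irr] at hP
    have hd : 1 ≤ P.natDegree := hP.2.1.natDegree_pos
    apply sum_congr rfl
    intro k hk
    rw [mem_Icc] at hk
    rw [sum_dvd ψ (P ^ k) (hP.1.pow k), hP.1.natDegree_pow]
    split_ifs with hkn
    · rw [sum_eq_single (k * P.natDegree)]
      · rw [if_pos rfl]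
        have h4 : ∑ g ∈ Mon F (n - k * P.natDegree), ψ (P ^ k * g) =
            ψ P ^ k * ∑ g ∈ Mon F (n - k * P.natDegree), ψ g := by
          rw [mul_sum]
          refine sum_congr rfl fun g hg => ?_
          rw [mem_Mon] at hg
          rw [hmul _ _ (hP.1.pow k) hg.1, pow_val hψ1 hmul hP.1]
        rw [h4]
        ring
      · intro m _ hm
        rw [if_neg (Ne.symm hm), mul_zero]
      · intro hk'
        exact absurd (mem_Icc.2 ⟨Nat.mul_pos (by omega) hd, hkn⟩) hk'
    · rw [mul_zero]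
      symm
      apply sum_eq_zero
      intro m hm
      rw [mem_Icc] at hm
      rw [if_neg (by omega), mul_zero]
  rw [sum_congr rfl h3]
  have h4 : ∑ m ∈ Icc 1 n,
      (∑ P ∈ PD F m, (P.natDegree : R) * ψ P ^ (m / P.natDegree)) * ∑ f ∈ Mon F (n - m), ψ f =
      ∑ m ∈ Icc 1 n, ∑ P ∈ Irr F n, ∑ k ∈ Icc 1 n, (∑ f ∈ Mon F (n - m), ψ f) *
        (if k * P.natDegree = m then (P.natDegree : R) * ψ P ^ k else 0) := by
    apply sum_congr rfl
    intro m hm
    rw [mem_Icc] at hm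
    rw [T_eq' ψ n m hm.1 hm.2, mul_comm, mul_sum]
    apply sum_congr rfl
    intro P _
    rw [mul_sum]
  rw [h4]
  symm
  rw [sum_comm]
  apply sum_congr rfl
  intro P _
  rw [sum_comm]

/-- convolution over the monic polynomials -/
theorem conv (a b : F[X] → R) (n : ℕ) [DecidableEq F] :
    ∑ j ∈ range (n + 1), (∑ f ∈ Mon F j, a f) * (∑ g ∈ Mon F (n - j), b g) =
    (open Classical in ∑ h ∈ Mon F n, ∑ f ∈ (UB F n).filter (fun f => f ∣ h), a f * b (h /ₘ f)) := by
  classical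
  have h1 : ∑ h ∈ Mon F n, ∑ f ∈ (UB F n).filter (fun f => f ∣ h), a f * b (h /ₘ f) =
      ∑ f ∈ UB F n, a f * ∑ h ∈ Mon F n, (if f ∣ h then b (h /ₘ f) else 0) := by
    have h2 : ∀ h ∈ Mon F n, ∑ f ∈ (UB F n).filter (fun f => f ∣ h), a f * b (h /ₘ f) =
        ∑ f ∈ UB F n, (if f ∣ h then a f * b (h /ₘ f) else 0) := by
      intro h _
      rw [sum_filter]
    rw [sum_congr rfl h2, sum_comm]
    refine sum_congr rfl fun f _ => ?_
    rw [mul_sum]
    refine sum_congr rfl fun h _ => ?_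
    split_ifs <;> simp
  rw [h1, sum_UB]
  refine sum_congr rfl fun j hj => ?_
  rw [sum_mul]
  refine sum_congr rfl fun f hf => ?_
  rw [mem_range] at hj
  rw [mem_Mon] at hf
  rw [sum_dvd (fun h => b (h /ₘ f)) f hf.1 n, if_pos (by omega), hf.2]
  congr 1
  refine sum_congr rfl fun g _ => ?_
  rw [mul_divByMonic_cancel_left _ hf.1]

theorem t_CPR : S_CPR := by
  intro F _ _ k hk
  have key : ∀ n : ℕ, 1 ≤ n →
      ∑ P ∈ PD F n, (P.natDegree : ℤ) = (Fintype.card F : ℤ) ^ n := by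
    intro n
    induction n using Nat.strong_induction_on with
    | _ n ih =>
      intro hn
      have h1 := log_deriv (F := F) (R := ℤ) (ψ := fun _ => 1) rfl (fun _ _ _ _ => by simp) n
      simp only [one_pow, mul_one, sum_const, card_Mon, nsmul_eq_mul] at h1
      have h2 : Icc 1 n = insert n (Icc 1 (n - 1)) := by
        ext j
        rw [mem_insert, mem_Icc, mem_Icc]
        omega
      rw [h2, sum_insert (by rw [mem_Icc]; omega)] at h1
      have h3 : ∑ m ∈ Icc 1 (n - 1), (∑ P ∈ PD F m, (P.natDegree : ℤ)) *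
          ((Fintype.card F ^ (n - m) : ℕ) : ℤ) = (n - 1 : ℤ) * (Fintype.card F : ℤ) ^ n := by
        have h4 : ∀ m ∈ Icc 1 (n - 1), (∑ P ∈ PD F m, (P.natDegree : ℤ)) *
            ((Fintype.card F ^ (n - m) : ℕ) : ℤ) = (Fintype.card F : ℤ) ^ n := by
          intro m hm
          rw [mem_Icc] at hm
          rw [ih m (by omega) hm.1]
          push_cast
          rw [← pow_add]
          congr 1
          omega
        rw [sum_congr rfl h4, sum_const, Nat.card_Icc, nsmul_eq_mul]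
        congr 1
        omega
      rw [h3] at h1
      rw [Nat.sub_self, pow_zero] at h1
      push_cast at h1
      linarith
  have h1 := key k hk
  exact_mod_cast h1

end Pool.Agent.Q53.PS
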