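import Pool.Agent.Q284.PS.Stm2

/-!
# Project PS (helper284), job CNT: the number of primitive Hayes characters
-/

set_option autoImplicit false

open Finset Polynomial ComplexConjugate
open Pool.Agent.H341R2.Sharp (Mon mem_Mon Mon_zero)

namespace Pool.Agent.Q53.PS

open Pool.Agent.Q284.PS

section

variable {F : Type} [Field F] [Fintype F]

lemma exists_coprime_Mon (Q : F[X]) (hQ : Q.Monic) (l : ℕ) :
    ∃ f ∈ Mon F (Q.natDegree + l), IsCoprime f Q := by
  classical
  rcases Nat.eq_zero_or_pos (Q.natDegree + l) with h | h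
  · refine ⟨1, ?_, isCoprime_one_left⟩
    rw [h, Mon_zero]
    exact mem_singleton_self _
  · have h1 : (X ^ l * Q).Monic := (monic_X_pow l).mul hQ
    have h2 : (X ^ l * Q).natDegree = Q.natDegree + l := by
      rw [(monic_X_pow l).natDegree_mul hQ, natDegree_X_pow, add_comm]
    have h3 : (1 : F[X]).degree < (X ^ l * Q).degree := by
      rw [degree_one, degree_eq_natDegree h1.ne_zero, h2]
      exact_mod_cast h
    refine ⟨X ^ l * Q + 1, ?_, ?_⟩
    · rw [mem_Mon]
      exact ⟨h1.add_of_left h3, by rw [natDegree_add_eq_left_of_degree_lt h3, h2]⟩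
    · exact ⟨1, -X ^ l, by ring⟩

lemma card_hay (hHC : S_HC) (hVAN : S_VAN) (hCM : S_CMON) (Q : F[X]) (l : ℕ)
    (T : Finset (F[X] → ℂ)) (hT : ∀ χ ∈ T, Hay Q l χ) :
    T.card ≤ Fintype.card F ^ (Q.natDegree + l) := by
  classical
  rcases T.eq_empty_or_nonempty with rfl | ⟨χ₀, hχ₀⟩
  · simp
  have hQ := (hT χ₀ hχ₀).monic
  obtain ⟨f₀, hf₀, hcop⟩ := exists_coprime_Mon Q hQ l
  let v : T → EuclideanSpace ℂ (Mon F (Q.natDegree + l)) :=
    fun χ => (WithLp.equiv 2 _).symm (fun f => χ.1 f.1)
  have hinner : ∀ χ χ' : T, inner ℂ (v χ) (v χ') =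
      ∑ f ∈ Mon F (Q.natDegree + l), χ'.1 f * conj (χ.1 f) := by
    intro χ χ'
    rw [PiLp.inner_apply, ← Finset.sum_coe_sort (Mon F (Q.natDegree + l))
      (fun f => χ'.1 f * conj (χ.1 f))]
    rfl
  have hli : LinearIndependent ℂ v := by
    apply linearIndependent_of_ne_zero_of_inner_eq_zero
    · intro χ h
      have h1 : (v χ) ⟨f₀, hf₀⟩ = 0 := by rw [h]; rfl
      have h2 : χ.1 f₀ = 0 := h1
      have h3 := (hT χ.1 χ.2).norm f₀ (mem_Mon.1 hf₀).1 hcop
      rw [h2] at h3
      simp at h3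
    · intro χ χ' hne
      rw [hinner]
      have h1 := (hHC F Q Q l l χ'.1 χ.1 (hT _ χ'.2) (hT _ χ.2)).2.2.2 rfl rfl
      have h2 : ∃ h : F[X], h.Monic ∧ χ'.1 h * conj (χ.1 h) ≠ 0 ∧ χ'.1 h * conj (χ.1 h) ≠ 1 := by
        have h3 : χ.1 ≠ χ'.1 := fun h => hne (Subtype.ext h)
        obtain ⟨h, hh⟩ := Function.ne_iff.1 h3
        have hm : h.Monic := by
          by_contra hm
          rw [(hT _ χ.2).off h hm, (hT _ χ'.2).off h hm] at hh
          exact hh rfl
        have hc : IsCoprime h Q := by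
          by_contra hc
          rw [(hT _ χ.2).zero h hm hc, (hT _ χ'.2).zero h hm hc] at hh
          exact hh rfl
        have n1 := (hT _ χ.2).norm h hm hc
        have n2 := (hT _ χ'.2).norm h hm hc
        refine ⟨h, hm, ?_, ?_⟩
        · intro h0
          have := congrArg norm h0
          rw [norm_mul, RCLike.norm_conj, n1, n2] at this
          simp at this
        · intro h0
          apply hh
          have h4 : χ.1 h * conj (χ.1 h) = 1 := by
            rw [Complex.mul_conj, Complex.normSq_eq_norm_sq, n1]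
            simp
          have h5 : conj (χ.1 h) ≠ 0 := by
            intro h6
            rw [h6, mul_zero] at h4
            exact zero_ne_one h4
          exact mul_right_cancel₀ h5 (h4.trans h0.symm)
      have h3 := hVAN F Q l _ h1 h2 1 (Q.natDegree + l) monic_one (by simp)
      rw [← h3]
      symm
      refine sum_congr ?_ fun _ _ => rfl
      ext f
      simp
  have h1 := hli.fintype_card_le_finrank
  rw [finrank_euclideanSpace, Fintype.card_coe, Fintype.card_coe, (hCM F).1] at h1
  exact h1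

lemma finite_hay (hHC : S_HC) (hVAN : S_VAN) (hCM : S_CMON) (Q : F[X]) (l : ℕ) :
    {χ : F[X] → ℂ | Hay Q l χ}.Finite := by
  by_contra h
  obtain ⟨T, hT, hc⟩ := (Set.not_finite.1 h).exists_subset_card_eq
    (Fintype.card F ^ (Q.natDegree + l) + 1)
  have := card_hay hHC hVAN hCM Q l T (fun χ hχ => hT hχ)
  omega

lemma geom_le {q : ℕ} (hq : 2 ≤ q) (m : ℕ) : ∑ i ∈ range (m + 1), q ^ i ≤ 2 * q ^ m := by
  induction m with
  | zero => simp
  | succ m ih =>
    rw [sum_range_succ, pow_succ]
    have : q ^ m * 2 ≤ q ^ m * q := Nat.mul_le_mul_left _ hq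
    omega

end

theorem t_CNT (hHC : S_HC) (hVAN : S_VAN) (hCM : S_CMON) : S_CNT := by
  intro F _ _ L0 N
  classical
  by_cases hLN : N < L0
  · have h1 : {p : F[X] × ℕ × (F[X] → ℂ) | Prim p.1 p.2.1 p.2.2 ∧
        p.1.natDegree + max L0 p.2.1 ≤ N} = ∅ := by
      ext p
      simp only [Set.mem_ofPred_eq, Set.mem_empty_iff_false, iff_false, not_and, not_le]
      intro _
      have := le_max_left L0 p.2.1
      omega
    rw [h1]
    refine ⟨Set.finite_empty, ?_⟩
    rw [Set.ncard_empty]
    have : 0 ≤ qq F := by unfold qq; positivity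
    simp
    positivity
  have hq : 2 ≤ Fintype.card F := Fintype.one_lt_card
  let H : F[X] → ℕ → Finset (F[X] → ℂ) := fun Q l => (finite_hay hHC hVAN hCM Q l).toFinset
  let T : Finset (F[X] × ℕ × (F[X] → ℂ)) := (range (N - L0 + 1)).biUnion fun j =>
    (Mon F j).biUnion fun Q => (range (N - j + 1)).biUnion fun l =>
      (H Q l).image fun χ => (Q, l, χ)
  have hsub : {p : F[X] × ℕ × (F[X] → ℂ) | Prim p.1 p.2.1 p.2.2 ∧
      p.1.natDegree + max L0 p.2.1 ≤ N} ⊆ ↑T := by
    rintro ⟨Q, l, χ⟩ ⟨h1, h2⟩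
    simp only at h1 h2
    have h3 := le_max_left L0 l
    have h4 := le_max_right L0 l
    rw [Finset.mem_coe, mem_biUnion]
    refine ⟨Q.natDegree, mem_range.2 (by omega), ?_⟩
    rw [mem_biUnion]
    refine ⟨Q, mem_Mon.2 ⟨h1.1.monic, rfl⟩, ?_⟩
    rw [mem_biUnion]
    refine ⟨l, mem_range.2 (by omega), ?_⟩
    rw [mem_image]
    exact ⟨χ, (Set.Finite.mem_toFinset _).2 h1.1, rfl⟩
  have hcard : T.card * Fintype.card F ^ L0 ≤ 4 * Fintype.card F ^ (2 * N) := by
    have h1 : T.card ≤ ∑ j ∈ range (N - L0 + 1), ∑ Q ∈ Mon F j, ∑ l ∈ range (N - j + 1),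
        Fintype.card F ^ (j + l) := by
      refine card_biUnion_le.trans (sum_le_sum fun j _ => ?_)
      refine card_biUnion_le.trans (sum_le_sum fun Q hQ => ?_)
      refine card_biUnion_le.trans (sum_le_sum fun l _ => ?_)
      refine card_image_le.trans ?_
      rw [mem_Mon] at hQ
      rw [← hQ.2]
      exact card_hay hHC hVAN hCM Q l _ fun χ hχ => (Set.Finite.mem_toFinset _).1 hχ
    have h2 : ∑ j ∈ range (N - L0 + 1), ∑ Q ∈ Mon F j, ∑ l ∈ range (N - j + 1),
        Fintype.card F ^ (j + l) ≤ 4 * Fintype.card F ^ (N + (N - L0)) := by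
      calc _ ≤ ∑ j ∈ range (N - L0 + 1), 2 * Fintype.card F ^ N * Fintype.card F ^ j := by
            refine sum_le_sum fun j hj => ?_
            rw [mem_range] at hj
            rw [sum_const, (hCM F).1, smul_eq_mul]
            have h3 : ∑ l ∈ range (N - j + 1), Fintype.card F ^ (j + l) ≤
                Fintype.card F ^ j * (2 * Fintype.card F ^ (N - j)) := by
              simp only [pow_add]
              rw [← mul_sum]
              exact Nat.mul_le_mul_left _ (geom_le hq _)
            refine (Nat.mul_le_mul_left _ h3).trans (le_of_eq ?_)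
            have h4 : Fintype.card F ^ N = Fintype.card F ^ j * Fintype.card F ^ (N - j) := by
              rw [← pow_add]
              congr 1
              omega
            rw [h4]
            ring
        _ = 2 * Fintype.card F ^ N * ∑ j ∈ range (N - L0 + 1), Fintype.card F ^ j := by
            rw [mul_sum]
        _ ≤ 2 * Fintype.card F ^ N * (2 * Fintype.card F ^ (N - L0)) :=
            Nat.mul_le_mul_left _ (geom_le hq _)
        _ = _ := by rw [pow_add]; ring
    calc T.card * Fintype.card F ^ L0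
        ≤ (4 * Fintype.card F ^ (N + (N - L0))) * Fintype.card F ^ L0 :=
          Nat.mul_le_mul_right _ (h1.trans h2)
      _ = 4 * Fintype.card F ^ (2 * N) := by
          rw [mul_assoc, ← pow_add]
          congr 2
          omega
  refine ⟨(Finset.finite_toSet T).subset hsub, ?_⟩
  have h1 : {p : F[X] × ℕ × (F[X] → ℂ) | Prim p.1 p.2.1 p.2.2 ∧
      p.1.natDegree + max L0 p.2.1 ≤ N}.ncard ≤ T.card := by
    rw [← Set.ncard_coe_finset T]
    exact Set.ncard_le_ncard hsub (Finset.finite_toSet T)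
  unfold qq
  have h2 : {p : F[X] × ℕ × (F[X] → ℂ) | Prim p.1 p.2.1 p.2.2 ∧
      p.1.natDegree + max L0 p.2.1 ≤ N}.ncard * Fintype.card F ^ L0 ≤
      4 * Fintype.card F ^ (2 * N) := (Nat.mul_le_mul_right _ h1).trans hcard
  exact_mod_cast h2

end Pool.Agent.Q53.PS
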