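import Pool.Agent.Q284.PS.Stm

/-!
# Project PS (helper284), job HC: closure properties of Hayes characters, counting
-/

set_option autoImplicit false

open Finset Polynomial ComplexConjugate
open Pool.Agent.H341R2.Sharp (Mon mem_Mon)

namespace Pool.Agent.Q53.PS

open Pool.Agent.Q284.PS

lemma hay_mulconj {F : Type} [Field F] {Q Q' Q₁ : F[X]} {l l' l₁ : ℕ} {χ χ' : F[X] → ℂ}
    (h : Hay Q l χ) (h' : Hay Q' l' χ') (hQ : Q ∣ Q₁) (hQ' : Q' ∣ Q₁) (hm : Q₁.Monic)
    (hl : l ≤ l₁) (hl' : l' ≤ l₁)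
    (hc : ∀ f, ¬ IsCoprime f Q₁ → ¬ IsCoprime f Q ∨ ¬ IsCoprime f Q') :
    Hay Q₁ l₁ (fun f => χ f * conj (χ' f)) := by
  refine ⟨hm, ?_, ?_, ?_, ?_, ?_, ?_⟩
  · intro f hf
    rw [h.off f hf, zero_mul]
  · rw [h.one, h'.one]
    simp
  · intro f g hf hg
    rw [h.mul f g hf hg, h'.mul f g hf hg, map_mul]
    ring
  · intro f hf hcop
    rw [norm_mul, RCLike.norm_conj, h.norm f hf (hcop.of_isCoprime_of_dvd_right hQ),
      h'.norm f hf (hcop.of_isCoprime_of_dvd_right hQ'), one_mul]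
  · intro f hf hcop
    rcases hc f hcop with h1 | h1
    · rw [h.zero f hf h1, zero_mul]
    · rw [h'.zero f hf h1, map_zero, mul_zero]
  · intro f g hf hg h1 h2
    rw [h.per f g hf hg (hQ.trans h1) ((pow_dvd_pow X (by omega)).trans h2),
      h'.per f g hf hg (hQ'.trans h1) ((pow_dvd_pow X (by omega)).trans h2)]

lemma hay_conj {F : Type} [Field F] {Q : F[X]} {l : ℕ} {χ : F[X] → ℂ}
    (h : Hay Q l χ) : Hay Q l (fun f => conj (χ f)) := by
  refine ⟨h.monic, ?_, ?_, ?_, ?_, ?_, ?_⟩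
  · intro f hf
    rw [h.off f hf, map_zero]
  · rw [h.one]
    simp
  · intro f g hf hg
    rw [h.mul f g hf hg, map_mul]
  · intro f hf hcop
    rw [RCLike.norm_conj, h.norm f hf hcop]
  · intro f hf hcop
    rw [h.zero f hf hcop, map_zero]
  · intro f g hf hg h1 h2
    rw [h.per f g hf hg h1 h2]

lemma hay_sq {F : Type} [Field F] {Q : F[X]} {l : ℕ} {χ : F[X] → ℂ}
    (h : Hay Q l χ) : Hay Q l (fun f => χ f ^ 2) := by
  refine ⟨h.monic, ?_, ?_, ?_, ?_, ?_, ?_⟩
  · intro f hf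
    rw [h.off f hf]
    simp
  · rw [h.one]
    simp
  · intro f g hf hg
    rw [h.mul f g hf hg, mul_pow]
  · intro f hf hcop
    rw [norm_pow, h.norm f hf hcop, one_pow]
  · intro f hf hcop
    rw [h.zero f hf hcop]
    simp
  · intro f g hf hg h1 h2
    rw [h.per f g hf hg h1 h2]

theorem t_HC : S_HC := by
  intro F _ Q Q' l l' χ χ' h h'
  refine ⟨?_, hay_conj h, hay_sq h, ?_⟩
  · apply hay_mulconj h h' (dvd_mul_right _ _) (dvd_mul_left _ _) (h.monic.mul h'.monic)
      (le_max_left _ _) (le_max_right _ _)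
    intro f hf
    rw [IsCoprime.mul_right_iff] at hf
    tauto
  · rintro rfl rfl
    exact hay_mulconj h h' dvd_rfl dvd_rfl h.monic le_rfl le_rfl fun f hf => Or.inl hf

section Count

variable {F : Type} [Field F] [Fintype F]

lemma card_Mon (n : ℕ) : (Mon F n).card = Fintype.card F ^ n := by
  classical
  have e : {p : F[X] // p.Monic ∧ p.natDegree = n} ≃ (Fin n → F) :=
    (monicEquivDegreeLT n).trans (degreeLTEquiv F n).toEquiv
  have h1 : (Mon F n).card = Nat.card {p : F[X] // p.Monic ∧ p.natDegree = n} := by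
    have e2 : {p : F[X] // p.Monic ∧ p.natDegree = n} ≃ {p : F[X] // p ∈ Mon F n} :=
      Equiv.subtypeEquivRight fun p => mem_Mon.symm
    rw [Nat.card_congr e2, Nat.card_eq_fintype_card, Fintype.card_coe]
  rw [h1, Nat.card_congr e, Nat.card_eq_fintype_card]
  simp

open Classical in
lemma filter_dvd (d : F[X]) (k : ℕ) (hd : d.Monic) (hk : d.natDegree ≤ k) :
    (Mon F k).filter (fun f => d ∣ f) = (Mon F (k - d.natDegree)).image (fun g => d * g) := by
  ext f
  rw [mem_filter, mem_image, mem_Mon]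
  constructor
  · rintro ⟨⟨h1, h2⟩, g, rfl⟩
    have hg : g.Monic := hd.of_mul_monic_left h1
    refine ⟨g, ?_, rfl⟩
    rw [mem_Mon]
    rw [hd.natDegree_mul hg] at h2
    exact ⟨hg, by omega⟩
  · rintro ⟨g, hg, rfl⟩
    rw [mem_Mon] at hg
    refine ⟨⟨hd.mul hg.1, ?_⟩, dvd_mul_right _ _⟩
    rw [hd.natDegree_mul hg.1]
    omega

theorem t_CMON : S_CMON := by
  intro F _ _
  classical
  refine ⟨card_Mon, ?_⟩
  intro d k hd hk
  rw [filter_dvd d k hd hk, Finset.card_image_of_injective, card_Mon]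
  intro g g' h
  exact mul_left_cancel₀ hd.ne_zero h

end Count

end Pool.Agent.Q53.PS
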