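import Pool.Agent.Q53.PS.Gen

/-!
# Project PS (helper284), job IDN: convolution identities for rough polynomials
-/

set_option autoImplicit false

open Finset Polynomial ComplexConjugate
open Pool.Agent.H341R2.Sharp (Mon mem_Mon Mon_zero Irr mem_Irr count_dvd)

namespace Pool.Agent.Q53.PS

open Pool.Agent.Q284.PS

section Field

variable {F : Type} [Field F]

lemma rough_one (y : ℕ) : Rough y (1 : F[X]) := by
  intro P _ hP hd
  exact absurd (isUnit_of_dvd_one hd) hP.not_isUnit

lemma rough_mul (y : ℕ) (f g : F[X]) : Rough y (f * g) ↔ Rough y f ∧ Rough y g := by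
  constructor
  · intro h
    exact ⟨fun P h1 h2 h3 => h P h1 h2 (h3.mul_right g), fun P h1 h2 h3 => h P h1 h2 (h3.mul_left f)⟩
  · rintro ⟨h, h'⟩ P h1 h2 h3
    rcases h2.prime.dvd_or_dvd h3 with h4 | h4
    · exact h P h1 h2 h4
    · exact h' P h1 h2 h4

lemma rough_prime {y : ℕ} {P : F[X]} (hP : P.Monic) (hi : Irreducible P) :
    Rough y P ↔ y < P.natDegree := by
  constructor
  · intro h
    exact h P hP hi dvd_rfl
  · intro h P' h1 h2 h3
    have h4 : Associated P' P := (h2.dvd_irreducible_iff_associated hi).1 h3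
    rw [eq_of_monic_of_associated h1 hP h4]
    exact h

lemma mu_one : mu (1 : F[X]) = 1 := by
  classical
  unfold mu
  rw [if_pos squarefree_one]
  simp

lemma mu_prime_mul {P f : F[X]} (_hP : P.Monic) (hi : Irreducible P) (hf : f ≠ 0)
    (hPf : ¬ P ∣ f) (hs : Squarefree f) : Squarefree (P * f) ∧ mu (P * f) = - mu f := by
  classical
  have h1 : Squarefree (P * f) := by
    rw [squarefree_mul_iff]
    exact ⟨((hi.coprime_iff_not_dvd).2 hPf).isRelPrime, hi.squarefree, hs⟩
  refine ⟨h1, ?_⟩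
  unfold mu
  rw [if_pos h1, if_pos hs, UniqueFactorizationMonoid.normalizedFactors_mul hi.ne_zero hf,
    UniqueFactorizationMonoid.normalizedFactors_irreducible hi, Multiset.card_add,
    Multiset.card_singleton, pow_add, pow_one]
  ring

end Field

variable {F : Type} [Field F] [Fintype F]

open Classical in
lemma sum_mu (n : ℕ) (hn : 1 ≤ n) (h : F[X]) (hh : h.Monic) (hd : h.natDegree = n) :
    ∑ f ∈ (UB F n).filter (fun f => f ∣ h), mu f = 0 := by
  have h1 : ∑ f ∈ (UB F n).filter (fun f => f ∣ h), mu f =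
      ∑ f ∈ ((UB F n).filter (fun f => f ∣ h)).filter (fun f => Squarefree f), mu f := by
    rw [sum_filter (s := (UB F n).filter (fun f => f ∣ h))]
    refine sum_congr rfl fun f _ => ?_
    split_ifs with h2
    · rfl
    · unfold mu
      rw [if_neg h2]
  rw [h1]
  obtain ⟨P, hP, hi, hPh⟩ := Polynomial.exists_monic_irreducible_factor h (by
    intro hu
    have := natDegree_eq_zero_of_isUnit hu
    omega)
  have hPd : 0 < P.natDegree := hi.natDegree_pos
  have hmem : ∀ f, f ∈ ((UB F n).filter (fun f => f ∣ h)).filter (fun f => Squarefree f) ↔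
      f.Monic ∧ f ∣ h ∧ Squarefree f := by
    intro f
    rw [mem_filter, mem_filter, mem_UB]
    constructor
    · rintro ⟨⟨⟨h1, h2⟩, h3⟩, h4⟩
      exact ⟨h1, h3, h4⟩
    · rintro ⟨h1, h3, h4⟩
      refine ⟨⟨⟨h1, ?_⟩, h3⟩, h4⟩
      rw [← hd]
      exact natDegree_le_of_dvd h3 hh.ne_zero
  -- division
  have hdiv : ∀ f : F[X], f.Monic → Squarefree f → P ∣ f → ∃ g, f = P * g ∧ f /ₘ P = g ∧ g.Monic ∧
      ¬ P ∣ g ∧ Squarefree g := by
    rintro f hf hs ⟨g, rfl⟩
    have hg : g.Monic := hP.of_mul_monic_left hf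
    refine ⟨g, rfl, mul_divByMonic_cancel_left _ hP, hg, ?_, (squarefree_mul_iff.1 hs).2.2⟩
    rintro ⟨g', rfl⟩
    exact hi.not_isUnit (hs P ⟨g', by ring⟩)
  refine Finset.sum_involution (fun f _ => if P ∣ f then f /ₘ P else P * f) ?_ ?_ ?_ ?_
  · intro f hf
    rw [hmem] at hf
    split_ifs with h2
    · obtain ⟨g, rfl, h3, h4, h5, h6⟩ := hdiv f hf.1 hf.2.2 h2
      rw [h3, (mu_prime_mul hP hi h4.ne_zero h5 h6).2]
      ring
    · rw [(mu_prime_mul hP hi hf.1.ne_zero h2 hf.2.2).2]
      ring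
  · intro f hf _ heq
    rw [hmem] at hf
    split_ifs at heq with h2
    · obtain ⟨g, h2', h3, h4, h5, h6⟩ := hdiv f hf.1 hf.2.2 h2
      rw [h3] at heq
      rw [heq] at h5
      exact h5 h2
    · have h3 : (P * f).natDegree = P.natDegree + f.natDegree := hP.natDegree_mul hf.1
      rw [heq] at h3
      omega
  · intro f hf
    rw [hmem] at hf
    rw [hmem]
    split_ifs with h2
    · obtain ⟨g, h2', h3, h4, h5, h6⟩ := hdiv f hf.1 hf.2.2 h2
      rw [h3]
      refine ⟨h4, ?_, h6⟩
      rw [h2'] at hf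
      exact (dvd_mul_left g P).trans hf.2.1
    · refine ⟨hP.mul hf.1, ?_, (mu_prime_mul hP hi hf.1.ne_zero h2 hf.2.2).1⟩
      exact IsCoprime.mul_dvd ((hi.coprime_iff_not_dvd).2 h2) hPh hf.2.1
  · intro f hf
    rw [hmem] at hf
    by_cases h2 : P ∣ f
    · obtain ⟨g, h2', h3, h4, h5, h6⟩ := hdiv f hf.1 hf.2.2 h2
      rw [if_pos h2, h3, if_neg h5, h2']
    · rw [if_neg h2, if_pos (dvd_mul_right P f), mul_divByMonic_cancel_left _ hP]

open Classical in
/-- the restriction to the rough polynomials -/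
noncomputable def rg (y : ℕ) (ψ : F[X] → ℂ) (f : F[X]) : ℂ := if Rough y f then ψ f else 0

omit [Fintype F] in
lemma rg_one (y : ℕ) (ψ : F[X] → ℂ) (h : CM ψ) : rg y ψ 1 = 1 := by
  classical
  unfold rg
  rw [if_pos (rough_one y), h.1]

omit [Fintype F] in
lemma rg_mul (y : ℕ) (ψ : F[X] → ℂ) (h : CM ψ) (f g : F[X]) (hf : f.Monic) (hg : g.Monic) :
    rg y ψ (f * g) = rg y ψ f * rg y ψ g := by
  classical
  unfold rg
  rw [rough_mul]
  by_cases h1 : Rough y f <;> by_cases h2 : Rough y g <;> simp [h1, h2, h.2 f g hf hg]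

lemma rr_eq (y : ℕ) (ψ : F[X] → ℂ) (k : ℕ) :
    rr y ψ k = (∑ f ∈ Mon F k, rg y ψ f) / (qq F : ℂ) ^ k := by
  classical
  unfold rr Ro rg
  rw [sum_filter]

lemma mm_eq (y : ℕ) (ψ : F[X] → ℂ) (k : ℕ) :
    mm y ψ k = (∑ f ∈ Mon F k, (mu f : ℂ) * rg y ψ f) / (qq F : ℂ) ^ k := by
  classical
  unfold mm Ro rg
  rw [sum_filter]
  congr 1
  refine sum_congr rfl fun f _ => ?_
  split_ifs <;> simp

lemma AA_eq (y : ℕ) (ψ : F[X] → ℂ) (k : ℕ) (_hk : 1 ≤ k) :
    AA y ψ k = (∑ P ∈ PD F k, (P.natDegree : ℂ) * rg y ψ P ^ (k / P.natDegree)) /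
      (qq F : ℂ) ^ k := by
  classical
  unfold AA rg
  rw [sum_filter]
  congr 1
  refine sum_congr rfl fun P hP => ?_
  rw [mem_PD] at hP
  have h1 : k / P.natDegree ≠ 0 := by
    have h2 : 0 < P.natDegree := hP.2.2.1.natDegree_pos
    have := Nat.div_pos hP.2.1 h2
    omega
  rw [rough_prime hP.1 hP.2.2.1]
  split_ifs with h3
  · rfl
  · rw [zero_pow h1, mul_zero]

lemma qq_pos : 0 < qq F := by
  unfold qq
  exact_mod_cast Fintype.card_pos

theorem t_IDN : S_IDN := by
  intro F _ _ y ψ hψ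
  classical
  have hq : (qq F : ℂ) ≠ 0 := by
    exact_mod_cast (qq_pos (F := F)).ne'
  refine ⟨?_, ?_, ?_⟩
  · rw [rr_eq, Mon_zero, sum_singleton, rg_one y ψ hψ]
    simp
  · rw [mm_eq, Mon_zero, sum_singleton, rg_one y ψ hψ, mu_one]
    simp
  intro n hn
  constructor
  · have h1 := log_deriv (rg_one y ψ hψ) (rg_mul y ψ hψ) n
    rw [rr_eq, mul_div_assoc', h1, sum_div]
    refine sum_congr rfl fun j hj => ?_
    rw [mem_Icc] at hj
    rw [AA_eq y ψ j hj.1, rr_eq]
    have h2 : (qq F : ℂ) ^ n = (qq F : ℂ) ^ j * (qq F : ℂ) ^ (n - j) := by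
      rw [← pow_add]
      congr 1
      omega
    rw [h2, div_mul_div_comm]
  · have h1 := conv (fun f => (mu f : ℂ) * rg y ψ f) (rg y ψ) n
    have h2 : ∀ j ∈ range (n + 1), mm y ψ j * rr y ψ (n - j) =
        ((∑ f ∈ Mon F j, (mu f : ℂ) * rg y ψ f) * (∑ g ∈ Mon F (n - j), rg y ψ g)) /
          (qq F : ℂ) ^ n := by
      intro j hj
      rw [mem_range] at hj
      rw [mm_eq, rr_eq]
      have h2 : (qq F : ℂ) ^ n = (qq F : ℂ) ^ j * (qq F : ℂ) ^ (n - j) := by
        rw [← pow_add]
        congr 1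
        omega
      rw [h2, div_mul_div_comm]
    rw [sum_congr rfl h2, ← sum_div, h1]
    have h3 : ∑ h ∈ Mon F n, ∑ f ∈ (UB F n).filter (fun f => f ∣ h),
        (mu f : ℂ) * rg y ψ f * rg y ψ (h /ₘ f) = 0 := by
      apply sum_eq_zero
      intro h hh
      rw [mem_Mon] at hh
      have h4 : ∑ f ∈ (UB F n).filter (fun f => f ∣ h),
          (mu f : ℂ) * rg y ψ f * rg y ψ (h /ₘ f) =
          (∑ f ∈ (UB F n).filter (fun f => f ∣ h), (mu f : ℂ)) * rg y ψ h := by
        rw [sum_mul]
        refine sum_congr rfl fun f hf => ?_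
        rw [mem_filter, mem_UB] at hf
        obtain ⟨g, hg⟩ := hf.2
        have hgm : g.Monic := by
          apply hf.1.1.of_mul_monic_left
          rw [← hg]
          exact hh.1
        rw [hg, mul_divByMonic_cancel_left _ hf.1.1, rg_mul y ψ hψ f g hf.1.1 hgm]
        ring
      rw [h4]
      have h5 := sum_mu n hn h hh.1 hh.2
      have h6 : (∑ f ∈ (UB F n).filter (fun f => f ∣ h), (mu f : ℂ)) = 0 := by
        rw [← Complex.ofReal_sum, h5, Complex.ofReal_zero]
      rw [h6, zero_mul]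
    rw [h3, zero_div]

/-! ## I3 -/

theorem t_I3 : S_I3 := by
  intro r m a hr0 hm0 hr hm n hn
  let R : PowerSeries ℂ := PowerSeries.mk r
  let M : PowerSeries ℂ := PowerSeries.mk m
  let A : PowerSeries ℂ := PowerSeries.mk (fun k => if k = 0 then 0 else a k)
  let D : PowerSeries ℂ → PowerSeries ℂ := fun f => PowerSeries.X * PowerSeries.derivative ℂ f
  have hDc : ∀ (f : PowerSeries ℂ) (k : ℕ), PowerSeries.coeff k (D f) = k * PowerSeries.coeff k f := by
    intro f k
    change PowerSeries.coeff k (PowerSeries.X * PowerSeries.derivative ℂ f) = _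
    rcases k with _ | k
    · simp
    · rw [PowerSeries.coeff_succ_X_mul, PowerSeries.coeff_derivative]
      push_cast
      ring
  have hDmul : ∀ f g : PowerSeries ℂ, D (f * g) = D f * g + f * D g := by
    intro f g
    change PowerSeries.X * PowerSeries.derivative ℂ (f * g) = _
    rw [Derivation.leibniz]
    simp only [smul_eq_mul]
    change _ = PowerSeries.X * PowerSeries.derivative ℂ f * g +
      f * (PowerSeries.X * PowerSeries.derivative ℂ g)
    ring
  have hanti : ∀ (f g : ℕ → ℂ) (k : ℕ), PowerSeries.coeff k (PowerSeries.mk f * PowerSeries.mk g) =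
      ∑ j ∈ range (k + 1), f j * g (k - j) := by
    intro f g k
    rw [PowerSeries.coeff_mul, Finset.Nat.sum_antidiagonal_eq_sum_range_succ_mk]
    simp
  have hrange : ∀ k : ℕ, range (k + 1) = insert 0 (Icc 1 k) := by
    intro k
    ext j
    rw [mem_insert, mem_range, mem_Icc]
    omega
  have hMR : M * R = 1 := by
    ext k
    rw [hanti]
    rcases Nat.eq_zero_or_pos k with rfl | hk
    · simp [hm0, hr0]
    · rw [hm k hk, PowerSeries.coeff_one, if_neg (by omega)]
  have hDR : D R = A * R := by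
    ext k
    rw [hDc, hanti]
    rcases Nat.eq_zero_or_pos k with rfl | hk
    · simp
    · rw [hrange k, sum_insert (by simp), if_pos rfl, zero_mul, zero_add]
      have h1 := hr k hk
      rw [show PowerSeries.coeff k R = r k from PowerSeries.coeff_mk _ _, h1]
      refine sum_congr rfl fun j hj => ?_
      rw [mem_Icc] at hj
      rw [if_neg (by omega)]
  have hkey : D (D R) * M = D A + A * A := by
    rw [hDR, hDmul, hDR]
    calc (D A * R + A * (A * R)) * M = (D A + A * A) * (M * R) := by ring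
      _ = D A + A * A := by rw [hMR, mul_one]
  have hc := congrArg (PowerSeries.coeff n) hkey
  rw [map_add, hDc] at hc
  have h1 : D (D R) = PowerSeries.mk (fun k => (k : ℂ) ^ 2 * r k) := by
    ext k
    rw [hDc, hDc, PowerSeries.coeff_mk, PowerSeries.coeff_mk]
    ring
  rw [h1, hanti, hanti] at hc
  rw [show PowerSeries.coeff n A = a n by
    change PowerSeries.coeff n (PowerSeries.mk _) = _
    rw [PowerSeries.coeff_mk, if_neg (by omega)]] at hc
  have h2 : ∑ j ∈ range (n + 1), (j : ℂ) ^ 2 * r j * m (n - j) =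
      ∑ j ∈ Icc 1 n, (j : ℂ) ^ 2 * r j * m (n - j) := by
    rw [hrange n, sum_insert (by simp)]
    simp
  have h3 : ∑ j ∈ range (n + 1), (if j = 0 then (0 : ℂ) else a j) *
      (if n - j = 0 then (0 : ℂ) else a (n - j)) = ∑ j ∈ Icc 1 (n - 1), a j * a (n - j) := by
    symm
    apply sum_subset_zero_on_sdiff
    · intro j hj
      rw [mem_Icc] at hj
      rw [mem_range]
      omega
    · intro j hj
      rw [mem_sdiff, mem_range, mem_Icc] at hj
      by_cases h4 : j = 0
      · rw [if_pos h4, zero_mul]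
      · rw [if_pos (show n - j = 0 by omega), mul_zero]
    · intro j hj
      rw [mem_Icc] at hj
      rw [if_neg (by omega), if_neg (by omega)]
  rw [h2, h3] at hc
  rw [hc]
  ring

end Pool.Agent.Q53.PS
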