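import Pool.Agent.Q284.PS.Stm0

/-!
# Project PS (helper284), job POL: polarisation
-/

set_option autoImplicit false

open Finset Polynomial ComplexConjugate

namespace Pool.Agent.Q53.PS

open Pool.Agent.Q284.PS

variable {ι : Type} [Fintype ι]

lemma offF_pol (M : ι → ι → ℂ) (u v : ι → ℂ) :
    4 * offF M u (fun i => conj (v i)) =
      offF M (fun i => u i + v i) (fun i => conj (u i + v i)) -
      offF M (fun i => u i - v i) (fun i => conj (u i - v i)) +
      Complex.I * offF M (fun i => u i + Complex.I * v i) (fun i => conj (u i + Complex.I * v i)) -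
      Complex.I * offF M (fun i => u i - Complex.I * v i)
        (fun i => conj (u i - Complex.I * v i)) := by
  unfold offF
  simp only [Finset.mul_sum, ← Finset.sum_add_distrib, ← Finset.sum_sub_distrib]
  refine Finset.sum_congr rfl fun i _ => Finset.sum_congr rfl fun j _ => ?_
  split_ifs with h
  · ring
  · simp only [map_add, map_sub, map_mul, Complex.conj_I]
    linear_combination (2 * u i * M i j * conj (v j) - 2 * v i * M i j * conj (u j)) * Complex.I_sq

lemma offF_smul (M : ι → ι → ℂ) (u v : ι → ℂ) (a b : ℂ) :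
    offF M (fun i => a * u i) (fun i => b * v i) = a * b * offF M u v := by
  unfold offF
  simp only [Finset.mul_sum]
  refine Finset.sum_congr rfl fun i _ => Finset.sum_congr rfl fun j _ => ?_
  split_ifs with h
  · ring
  · ring

lemma nsq_smul (u : ι → ℂ) (a : ℂ) : nsq (fun i => a * u i) = ‖a‖ ^ 2 * nsq u := by
  unfold nsq
  rw [Finset.mul_sum]
  refine Finset.sum_congr rfl fun i _ => ?_
  rw [norm_mul, mul_pow]

lemma nsq_par (u v : ι → ℂ) : nsq (fun i => u i + v i) + nsq (fun i => u i - v i) =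
    2 * (nsq u + nsq v) := by
  unfold nsq
  rw [← Finset.sum_add_distrib, ← Finset.sum_add_distrib, Finset.mul_sum]
  refine Finset.sum_congr rfl fun i _ => ?_
  have := parallelogram_law_with_norm ℝ (u i) (v i)
  linarith [this, sq ‖u i + v i‖, sq ‖u i - v i‖, sq ‖u i‖, sq ‖v i‖]

lemma nsq_nonneg (u : ι → ℂ) : 0 ≤ nsq u := Finset.sum_nonneg fun i _ => by positivity

lemma nsq_conj (u : ι → ℂ) : nsq (fun i => conj (u i)) = nsq u := by
  unfold nsq
  refine Finset.sum_congr rfl fun i _ => ?_
  rw [RCLike.norm_conj]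

lemma offF_bound (M : ι → ι → ℂ) (κ : ℝ)
    (h : ∀ c : ι → ℂ, ‖offF M c (fun i => conj (c i))‖ ≤ κ * nsq c) (u v : ι → ℂ) :
    ‖offF M u (fun i => conj (v i))‖ ≤ κ * (nsq u + nsq v) := by
  have h1 := offF_pol M u v
  have h2 : ‖4 * offF M u (fun i => conj (v i))‖ ≤
      κ * nsq (fun i => u i + v i) + κ * nsq (fun i => u i - v i) +
      κ * nsq (fun i => u i + Complex.I * v i) + κ * nsq (fun i => u i - Complex.I * v i) := by
    rw [h1]
    refine (norm_sub_le _ _).trans ?_
    refine add_le_add ((norm_add_le _ _).trans (add_le_add ((norm_sub_le _ _).trans ?_) ?_)) ?_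
    · exact add_le_add (h _) (h _)
    · rw [norm_mul, Complex.norm_I, one_mul]
      exact h _
    · rw [norm_mul, Complex.norm_I, one_mul]
      exact h _
  rw [norm_mul, show ‖(4 : ℂ)‖ = 4 by norm_num] at h2
  have h3 := nsq_par u v
  have h4 := nsq_par u (fun i => Complex.I * v i)
  have h5 : nsq (fun i => Complex.I * v i) = nsq v := by
    rw [nsq_smul]
    simp
  rw [h5] at h4
  have h6 : κ * nsq (fun i => u i + v i) + κ * nsq (fun i => u i - v i) +
      κ * nsq (fun i => u i + Complex.I * v i) + κ * nsq (fun i => u i - Complex.I * v i) =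
      κ * (2 * (nsq u + nsq v)) + κ * (2 * (nsq u + nsq v)) := by
    have h7 : κ * nsq (fun i => u i + v i) + κ * nsq (fun i => u i - v i) =
      κ * (2 * (nsq u + nsq v)) := by rw [← h3]; ring
    have h8 : κ * nsq (fun i => u i + Complex.I * v i) +
        κ * nsq (fun i => u i - Complex.I * v i) = κ * (2 * (nsq u + nsq v)) := by
      rw [← h4]; ring
    linarith
  rw [h6] at h2
  linarith

theorem t_POL : S_POL := by
  intro ι _ M κ hκ h u v
  have h1 : ∀ v' : ι → ℂ, v' = fun i => conj (conj (v' i)) := by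
    intro v'
    funext i
    simp
  rcases (nsq_nonneg u).eq_or_lt with hu | hu
  · -- u = 0
    have h2 : ∀ i, u i = 0 := by
      intro i
      have h3 := (Finset.sum_eq_zero_iff_of_nonneg (fun i _ => by positivity)).1 hu.symm i
        (Finset.mem_univ i)
      simpa using h3
    have h3 : offF M u v = 0 := by
      unfold offF
      simp [h2]
    rw [h3, ← hu]
    simp
  rcases (nsq_nonneg v).eq_or_lt with hv | hv
  · have h2 : ∀ i, v i = 0 := by
      intro i
      have h3 := (Finset.sum_eq_zero_iff_of_nonneg (fun i _ => by positivity)).1 hv.symm i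
        (Finset.mem_univ i)
      simpa using h3
    have h3 : offF M u v = 0 := by
      unfold offF
      simp [h2]
    rw [h3, ← hv]
    simp
  -- scaling
  have hsu : 0 < Real.sqrt (nsq u) := Real.sqrt_pos.2 hu
  have hsv : 0 < Real.sqrt (nsq v) := Real.sqrt_pos.2 hv
  have hb := offF_bound M κ h (fun i => ((Real.sqrt (nsq u) : ℝ) : ℂ)⁻¹ * u i)
    (fun i => conj (((Real.sqrt (nsq v) : ℝ) : ℂ)⁻¹ * v i))
  rw [nsq_conj, nsq_smul, nsq_smul] at hb
  have h2 : (fun i => conj (conj (((Real.sqrt (nsq v) : ℝ) : ℂ)⁻¹ * v i))) =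
      fun i => ((Real.sqrt (nsq v) : ℝ) : ℂ)⁻¹ * v i := by
    funext i
    rw [Complex.conj_conj]
  rw [h2, offF_smul] at hb
  rw [norm_mul, norm_mul, norm_inv, norm_inv, Complex.norm_real, Complex.norm_real,
    Real.norm_of_nonneg hsu.le, Real.norm_of_nonneg hsv.le, inv_pow, inv_pow,
    Real.sq_sqrt hu.le, Real.sq_sqrt hv.le, inv_mul_cancel₀ hu.ne', inv_mul_cancel₀ hv.ne'] at hb
  have h3 : ‖offF M u v‖ = Real.sqrt (nsq u) * Real.sqrt (nsq v) *
      ((Real.sqrt (nsq u))⁻¹ * (Real.sqrt (nsq v))⁻¹ * ‖offF M u v‖) := by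
    field_simp
  rw [h3]
  calc Real.sqrt (nsq u) * Real.sqrt (nsq v) *
      ((Real.sqrt (nsq u))⁻¹ * (Real.sqrt (nsq v))⁻¹ * ‖offF M u v‖)
      ≤ Real.sqrt (nsq u) * Real.sqrt (nsq v) * (κ * (1 + 1)) :=
        mul_le_mul_of_nonneg_left hb (by positivity)
    _ = _ := by ring

end Pool.Agent.Q53.PS
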